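import Pool.Agent.H16.TK.Stmt2

set_option autoImplicit false

open Set

namespace Pool.Agent.TK

theorem pf_NFA {C : Type} {c0 : C} (hNMI : NMI C c0) (hPTH : PTH C c0) : NFA C c0 := by
  intro M hM w P A S hc
  have hAf : ∀ n, (A n).Finite := by
    intro n
    induction n with
    | zero => exact hc.fin0
    | succ n ih => rw [hc.succ n]; exact ih.union (hc.next n).1
  have hAm : ∀ m n, m ≤ n → A m ⊆ A n := by
    intro m n hmn
    induction n, hmn using Nat.le_induction with
    | base => exact Subset.rfl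
    | succ n _ ih => rw [hc.succ n]; exact ih.trans subset_union_left
  have hP : ∀ n, P ⊆ A n := fun n => hc.P0.trans (hAm 0 n (Nat.zero_le n))
  have hSA : ∀ n, S n ⊆ A (n + 1) := fun n => by rw [hc.succ n]; exact subset_union_right
  have hcp : ∀ n, IsCp M (A n) (w (A n)) := fun n => hc.dir.1 _ (hAf n)
  have hSw : ∀ n, S n ⊆ w (A n) := fun n => (hc.next n).2.1
  have hSd : ∀ n, Disjoint (S n) (A n) := fun n => (hcp n).disj.mono_left (hSw n)
  have hwm : ∀ m n, m ≤ n → w (A n) ⊆ w (A m) := fun m n hmn =>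
    hc.dir.2 _ _ (hAf n) (hAm m n hmn)
  have hSw1 : ∀ n, Disjoint (S n) (w (A (n + 1))) := fun n =>
    ((hcp (n + 1)).disj.mono_right (hSA n)).symm
  have hNb : ∀ n, Nb M (w (A n)) ⊆ A n := fun n => (hcp n).nb hM
  have hEq : ∀ n, Nb M (w (A (n + 1))) \ P = S n := by
    intro n
    have h := hc.next n
    have hmin : S n = Nb M (w (A n ∪ S n)) ∩ w (A n) :=
      hNMI M hM w hc.dir P (A n) (S n) (hAf n) ⟨h.1, h.2.1, h.2.2.1⟩
        (fun B' hB' => (h.2.2.2 B' hB'.1 hB'.2.1 hB'.2.2).1)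
    rw [← hc.succ n] at hmin
    apply Subset.antisymm
    · rintro u ⟨hu, huP⟩
      have hu' := hNb (n + 1) hu
      rw [hc.succ n] at hu'
      rcases hu' with hu' | hu'
      · exfalso
        obtain ⟨hu1, s, hs, hE⟩ := hu
        have h1 : u ∈ Nb M (w (A n)) := by
          refine ⟨fun hw => ?_, s, hwm n (n + 1) (Nat.le_succ n) hs, hE⟩
          exact Set.disjoint_left.1 (hcp n).disj hw hu'
        have h2 := h.2.2.1
        rw [← hc.succ n] at h2
        exact Set.disjoint_left.1 h2 ⟨hu1, s, hs, hE⟩ ⟨h1, huP⟩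
      · exact hu'
    · intro u hu
      have hu2 := hu
      rw [hmin] at hu2
      exact ⟨hu2.1, fun hp => Set.disjoint_left.1 (hSd n) hu (hP n hp)⟩
  have hne : ∀ n, (S n).Nonempty := by
    intro n
    by_contra hn
    rw [not_nonempty_iff_eq_empty] at hn
    have h2 := (hc.next n).2.2.1
    rw [hn, union_empty] at h2
    have h3 : (Nb M (w (A n)) \ P).Nonempty → False := by
      rintro ⟨u, hu⟩
      exact Set.disjoint_left.1 h2 hu.1 hu
    apply h3
    clear h3 h2
    induction n with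
    | zero => exact hc.q0
    | succ n ih =>
      rw [hEq n]
      by_contra hn'
      rw [not_nonempty_iff_eq_empty] at hn'
      have h2 := (hc.next n).2.2.1
      rw [hn', union_empty] at h2
      obtain ⟨u, hu⟩ := ih hn'
      exact Set.disjoint_left.1 h2 hu.1 hu
  have hdis : ∀ m n, m < n → Disjoint (S m) (S n) := fun m n hmn =>
    ((hSd n).mono_right ((hSA m).trans (hAm (m + 1) n hmn))).symm
  refine ⟨fun n => ⟨hAf n, hP n, (hc.next n).1, hne n, hSw n, hSd n,
    hwm n (n + 1) (Nat.le_succ n), hSw1 n, hEq n, hNb n⟩, ?_, ?_⟩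
  · intro m n hmn
    rcases lt_or_gt_of_ne hmn with h | h
    · exact hdis m n h
    · exact (hdis n m h).symm
  · intro v
    by_contra hv
    push_neg at hv
    obtain ⟨q, hq⟩ := hne 0
    have hcon : Conn M (w (A 0))ᶜ v q := ((hcp 0).cd hM).2 v (hv 0) q (hSw 0 hq)
    obtain ⟨F, hF, hFD, hF2⟩ := hPTH M hM (w (A 0)) v q hcon
    have key : ∀ n, ∃ u, u ∈ F ∧ u ∈ S n := by
      intro n
      have hq' : q ∉ w (A (n + 1)) := fun h =>
        Set.disjoint_left.1 (hSw1 0) hq (hwm 1 (n + 1) (by omega) h)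
      obtain ⟨u, hu1, hu2⟩ := hF2 (w (A (n + 1))) (hv (n + 1)) hq'
      refine ⟨u, hu2, ?_⟩
      rw [← hEq n]
      exact ⟨hu1, fun hp => Set.disjoint_left.1 (hcp 0).disj (hFD hu2) (hc.P0 hp)⟩
    choose u hu1 hu2 using key
    have hinj : Function.Injective u := by
      intro m n hmn
      by_contra hne'
      rcases lt_or_gt_of_ne hne' with h | h
      · exact Set.disjoint_left.1 (hdis m n h) (hu2 m) (hmn ▸ hu2 n)
      · exact Set.disjoint_left.1 (hdis n m h) (hu2 n) (hmn ▸ hu2 m)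
    exact (Set.infinite_of_injective_forall_mem hinj hu1) hF

end Pool.Agent.TK
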