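import Pool.Agent.H16.TK.Stmt2

set_option autoImplicit false

open Set

namespace Pool.Agent.TK

theorem pf_TAM {C : Type} [MeasurableSpace C] {c0 : C} (hTA1 : TA1 C c0) (hTA2 : TA2 C c0)
    (hDIR : DIR C c0) (hBAS : BAS C c0) (hCSX : CSX C c0) (hLEVEL : LEVEL C c0) : TAM C c0 := by
  intro b X hX M hMX hND a D hD
  by_contra hT
  have hM : Valid c0 M := hX.val M hMX
  have hlim : ∀ r : Rk, RLe C r (Rk.lim r) := by
    intro r M M' U U' p h
    exact (h 0).1
  have hom : RLe C om b := by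
    intro M M' U U' p h
    exact hlim om M M' U U' p (hlim (Rk.lim om) M M' U U' p (hX.base M M' U U' p h))
  obtain ⟨E, l, hE, hE0⟩ := hTA1 b X hX M hMX a D hD hT
  have hanti : ∀ m n, m ≤ n → E n ⊆ E m := by
    intro m n hmn
    induction n, hmn using Nat.le_induction with
    | base => exact Subset.rfl
    | succ n _ ih => exact (hE n).2.2.trans ih
  obtain ⟨w, hw, hw2⟩ := hDIR M hM E (fun n => (hE n).2.2) (fun n => (hE n).1.cd hM) hE0
  have hDm : (Dm M w).Finite := hND w hw
  obtain ⟨A0, hA0, _, hA02, hA03⟩ := hBAS M hM w hw hDm ∅ finite_empty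
  obtain ⟨A, S, hc, hAA⟩ := hCSX M hM w hw (Dm M w) A0 hA0 hA02 Subset.rfl hA03
  obtain ⟨n0, hn0⟩ := hLEVEL b X hX M hMX w A S hc
  have hAf : ∀ n, (A n).Finite := by
    intro n
    induction n with
    | zero => exact hc.fin0
    | succ n ih => rw [hc.succ n]; exact ih.union (hc.next n).1
  -- a late `E N` avoids `A n0`
  have hN : ∀ B : Set ℕ, B.Finite → ∃ N, Disjoint B (E N) := by
    intro B hB
    induction B, hB using Set.Finite.induction_on with
    | empty => exact ⟨0, by simp⟩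
    | insert hx hs ih =>
      rename_i x s
      obtain ⟨N, hN⟩ := ih
      have hxE : x ∉ ⋂ n, E n := by rw [hE0]; simp
      simp only [mem_iInter, not_forall] at hxE
      obtain ⟨k, hk⟩ := hxE
      refine ⟨max N k, ?_⟩
      rw [Set.disjoint_left]
      intro y hy hyE
      rcases hy with rfl | hy
      · exact hk (hanti k _ (le_max_right _ _) hyE)
      · exact Set.disjoint_left.1 hN hy (hanti N _ (le_max_left _ _) hyE)
  obtain ⟨N, hN⟩ := hN (A n0) (hAf n0)
  have h1 : E N ⊆ w (A n0) := hw2 _ (hAf n0) N hN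
  have h2 : w (ms (l N)) = E N := by
    have h3 : E N ⊆ w (ms (l N)) := hw2 _ (ms_finite _) N (hE N).1.disj.symm
    obtain ⟨x, hx⟩ := (hE N).1.nonempty
    exact (hw.1 _ (ms_finite _)).eq_of_inter hM (hE N).1 (h3 hx) hx
  exact (hE N).2.1 (hTA2 b hom M hM w A S hc n0 hn0 (l N) (E N) (hE N).1 h1 h2)

end Pool.Agent.TK
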